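import Pool.Agent.J6H36.BSV.Defs3

/-!
# Project BSV, module NORM: normal subgroups of the automorphism group and Galois theory
-/

set_option autoImplicit false
set_option linter.unusedSectionVars false

universe u w

namespace Pool.Agent.J6H72.BSV

open Polynomial IntermediateField Pool.Agent.J6H36.BSV

section basic

variable {k Ω : Type u} [Field k] [Field Ω] [Algebra k Ω]

open scoped algebraAdjoinAdjoin in
/-- algebraic over `k[s]` and over `k(s)` is the same -/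
theorem isAlg_adjoin {s x : Ω} :
    IsAlgebraic (Algebra.adjoin k ({s} : Set Ω)) x ↔ IsAlgebraic k⟮s⟯ x :=
  IsFractionRing.isAlgebraic_iff (Algebra.adjoin k ({s} : Set Ω)) k⟮s⟯ Ω

theorem transc_of_eq {s t : Ω} (ht : Transcendental k t) (h : k⟮s⟯ = k⟮t⟯) :
    Transcendental k s := by
  intro hs
  have h1 : Algebra.IsAlgebraic k k⟮s⟯ := isAlgebraic_adjoin_simple hs.isIntegral
  have h2 : t ∈ k⟮s⟯ := by
    rw [h]
    exact mem_adjoin_simple_self k t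
  have h3 := h1.isAlgebraic (⟨t, h2⟩ : k⟮s⟯)
  exact ht (IntermediateField.isAlgebraic_iff.1 h3)

theorem exists_tau (hL : S_LIFT.{u}) [IsAlgClosed Ω] {s t : Ω} (ht : Transcendental k t)
    (halg : ∀ x : Ω, IsAlgebraic (Algebra.adjoin k ({t} : Set Ω)) x) (h : k⟮s⟯ = k⟮t⟯) :
    ∃ τ : Ω ≃ₐ[k] Ω, τ t = s := by
  refine hL k Ω t s ht halg (transc_of_eq ht h) fun x => ?_
  rw [isAlg_adjoin, h, ← isAlg_adjoin]
  exact halg x

theorem adjoin_add (t : Ω) (b : k) : k⟮t + algebraMap k Ω b⟯ = k⟮t⟯ := by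
  apply le_antisymm
  · rw [adjoin_simple_le_iff]
    exact add_mem (mem_adjoin_simple_self k t) (IntermediateField.algebraMap_mem _ b)
  · rw [adjoin_simple_le_iff]
    have h := sub_mem (mem_adjoin_simple_self k (t + algebraMap k Ω b))
      (IntermediateField.algebraMap_mem k⟮t + algebraMap k Ω b⟯ b)
    rwa [add_sub_cancel_right] at h

theorem adjoin_inv (t : Ω) : k⟮t⁻¹⟯ = k⟮t⟯ := by
  apply le_antisymm
  · rw [adjoin_simple_le_iff]
    exact inv_mem (mem_adjoin_simple_self k t)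
  · rw [adjoin_simple_le_iff]
    have h := inv_mem (mem_adjoin_simple_self k t⁻¹)
    rwa [inv_inv] at h

theorem fix_adjoin {t : Ω} {σ : Ω ≃ₐ[k] Ω} (h : σ t = t) (x : k⟮t⟯) : σ (x : Ω) = x := by
  have h1 : (σ : Ω →ₐ[k] Ω).comp k⟮t⟯.val = k⟮t⟯.val := by
    apply algHom_ext_of_eq_adjoin k (S := k⟮t⟯) (s := {t}) rfl
    intro y hy
    rw [Set.mem_singleton_iff] at hy
    subst hy
    exact h
  exact DFunLike.congr_fun h1 x

/-- an automorphism which fixes `t` is linear over `k(t)` -/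
noncomputable def toE {t : Ω} (σ : Ω ≃ₐ[k] Ω) (h : σ t = t) : Ω ≃ₐ[k⟮t⟯] Ω :=
  AlgEquiv.ofRingEquiv (f := σ.toRingEquiv) (fun x => fix_adjoin h x)

theorem toE_apply {t : Ω} (σ : Ω ≃ₐ[k] Ω) (h : σ t = t) (x : Ω) : toE σ h x = σ x := rfl

theorem toE_restrict {t : Ω} (σ : Ω ≃ₐ[k] Ω) (h : σ t = t) :
    (toE σ h).restrictScalars k = σ := by
  ext x
  rfl

/-- the part of `N` which is linear over `k(t)` -/
def NE (t : Ω) (N : Subgroup (Ω ≃ₐ[k] Ω)) : Subgroup (Ω ≃ₐ[k⟮t⟯] Ω) where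
  carrier := {σ | σ.restrictScalars k ∈ N}
  mul_mem' := fun {a b} ha hb => by
    have : (a * b).restrictScalars k = a.restrictScalars k * b.restrictScalars k := by
      ext x; rfl
    show (a * b).restrictScalars k ∈ N
    rw [this]
    exact N.mul_mem ha hb
  one_mem' := by
    have : (1 : Ω ≃ₐ[k⟮t⟯] Ω).restrictScalars k = 1 := by
      ext x; rfl
    show (1 : Ω ≃ₐ[k⟮t⟯] Ω).restrictScalars k ∈ N
    rw [this]
    exact N.one_mem
  inv_mem' := fun {a} ha => by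
    have : (a⁻¹).restrictScalars k = (a.restrictScalars k)⁻¹ := by
      ext x; rfl
    show (a⁻¹).restrictScalars k ∈ N
    rw [this]
    exact N.inv_mem ha

theorem mem_NE {t : Ω} {N : Subgroup (Ω ≃ₐ[k] Ω)} {σ : Ω ≃ₐ[k⟮t⟯] Ω} :
    σ ∈ NE t N ↔ σ.restrictScalars k ∈ N := Iff.rfl

/-- the elements which are separable over `k(t)` and fixed by the part of `N` linear over `k(t)` -/
noncomputable def F2 (t : Ω) (N : Subgroup (Ω ≃ₐ[k] Ω)) : IntermediateField k⟮t⟯ Ω :=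
  fixedField (NE t N) ⊓ separableClosure k⟮t⟯ Ω

theorem mem_F2 {t : Ω} {N : Subgroup (Ω ≃ₐ[k] Ω)} {z : Ω} :
    z ∈ F2 t N ↔ (∀ σ ∈ NE t N, σ z = z) ∧ IsSeparable k⟮t⟯ z := by
  unfold F2
  rw [IntermediateField.mem_inf, mem_separableClosure_iff]
  refine and_congr_left fun _ => ?_
  exact ⟨fun h σ hσ => h ⟨σ, hσ⟩, fun h σ => h σ σ.2⟩

end basic

section main

variable {k Ω : Type u} [Field k] [Field Ω] [Algebra k Ω] [IsAlgClosed k] [IsAlgClosed Ω] {t : Ω}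
  {N : Subgroup (Ω ≃ₐ[k] Ω)}

/-- (1) -/
theorem F2_le (halg : ∀ x : Ω, IsAlgebraic (Algebra.adjoin k ({t} : Set Ω)) x)
    (M : IntermediateField k⟮t⟯ Ω) (hM : ∀ σ : Ω ≃ₐ[k] Ω, (∀ z ∈ M, σ z = z) → σ ∈ N) :
    F2 t N ≤ M := by
  intro z hz
  obtain ⟨h1, h2⟩ := mem_F2.1 hz
  have hEalg : Algebra.IsAlgebraic k⟮t⟯ Ω := ⟨fun x => isAlg_adjoin.1 (halg x)⟩
  have hMalg : Algebra.IsAlgebraic M Ω := Algebra.IsAlgebraic.tower_top (K := k⟮t⟯) M
  have hclos : IsAlgClosure M Ω := ⟨inferInstance, hMalg⟩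
  have hnorm : Normal M Ω := IsAlgClosure.normal M Ω
  have hsep : IsSeparable M z := h2.tower_top M
  have hroot : (minpoly M z).rootSet Ω ⊆ {z} := by
    intro y hy
    have hy1 := (mem_rootSet.1 hy).2
    obtain ⟨σ, hσ⟩ := minpoly.exists_algEquiv_of_root' (hMalg.isAlgebraic z) hy1
    have h3 : σ.restrictScalars k⟮t⟯ ∈ NE t N := by
      rw [mem_NE]
      apply hM
      intro m hm
      exact σ.commutes ⟨m, hm⟩
    have h4 : σ z = z := h1 _ h3
    rw [Set.mem_singleton_iff, ← hσ, h4]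
  have hcard := card_rootSet_eq_natDegree (K := Ω) hsep (hnorm.splits z)
  have hle : Fintype.card ((minpoly M z).rootSet Ω) ≤ 1 := by
    rw [Fintype.card_le_one_iff_subsingleton]
    refine ⟨fun a b => Subtype.ext ?_⟩
    have ha : (a : Ω) = z := hroot a.2
    have hb : (b : Ω) = z := hroot b.2
    rw [ha, hb]
  have hint : IsIntegral M z := (hMalg.isAlgebraic z).isIntegral
  have hdeg : (minpoly M z).natDegree = 1 := by
    have := minpoly.natDegree_pos hint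
    omega
  have hdeg' : (minpoly M z).degree = 1 := by
    rw [degree_eq_natDegree (minpoly.ne_zero hint), hdeg]
    rfl
  obtain ⟨m, hm⟩ := minpoly.mem_range_of_degree_eq_one M z hdeg'
  rw [← hm]
  exact m.2

/-- (2) -/
theorem tau_mem [hN : N.Normal] {s : Ω} (hs : k⟮s⟯ = k⟮t⟯) {τ : Ω ≃ₐ[k] Ω} (hτ : τ t = s) {z : Ω}
    (hz : z ∈ F2 t N) : τ z ∈ F2 t N := by
  obtain ⟨h1, h2⟩ := mem_F2.1 hz
  have hsE : s ∈ k⟮t⟯ := by
    rw [← hs]
    exact mem_adjoin_simple_self k s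
  refine mem_F2.2 ⟨fun σ hσ => ?_, ?_⟩
  · have h3 : τ⁻¹ * σ.restrictScalars k * τ⁻¹⁻¹ ∈ N := hN.conj_mem _ hσ τ⁻¹
    have h4 : (τ⁻¹ * σ.restrictScalars k * τ⁻¹⁻¹) t = t := by
      have h5 : σ s = s := σ.commutes ⟨s, hsE⟩
      show τ.symm (σ (τ t)) = t
      rw [hτ, h5, ← hτ, AlgEquiv.symm_apply_apply]
    have h5 : toE _ h4 ∈ NE t N := by
      rw [mem_NE, toE_restrict]
      exact h3
    have h6 : τ.symm (σ (τ z)) = z := h1 _ h5
    rw [AlgEquiv.symm_apply_eq] at h6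
    exact h6
  · have hmap : ∀ x : k⟮t⟯, τ (x : Ω) ∈ k⟮t⟯ := by
      intro x
      have h3 : (k⟮t⟯).map (τ : Ω →ₐ[k] Ω) = k⟮t⟯ := by
        rw [adjoin_map, Set.image_singleton]
        have : (τ : Ω →ₐ[k] Ω) t = s := hτ
        rw [this, hs]
      have h4 : τ (x : Ω) ∈ (k⟮t⟯).map (τ : Ω →ₐ[k] Ω) := ⟨x, x.2, rfl⟩
      rwa [h3] at h4
    let τE : k⟮t⟯ →+* k⟮t⟯ :=
      (((τ : Ω →ₐ[k] Ω) : Ω →+* Ω).comp (algebraMap k⟮t⟯ Ω)).codRestrict k⟮t⟯ hmap
    have h5 : (algebraMap k⟮t⟯ Ω).comp τE = ((τ : Ω →ₐ[k] Ω) : Ω →+* Ω).comp (algebraMap k⟮t⟯ Ω) := by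
      ext x
      rfl
    have h2' : (minpoly k⟮t⟯ z).Separable := h2
    have h3 : ((minpoly k⟮t⟯ z).map τE).Separable := h2'.map
    refine h3.of_dvd (minpoly.dvd _ _ ?_)
    have h6 := hom_eval₂ (minpoly k⟮t⟯ z) (algebraMap k⟮t⟯ Ω) ((τ : Ω →ₐ[k] Ω) : Ω →+* Ω) z
    rw [← aeval_def, minpoly.aeval, map_zero] at h6
    rw [aeval_def, eval₂_map, h5]
    exact h6.symm

/-- (3) -/
theorem F2_eq (hP : S_P1.{u}) (hL : S_LIFT.{u}) (ht : Transcendental k t)
    (halg : ∀ x : Ω, IsAlgebraic (Algebra.adjoin k ({t} : Set Ω)) x) [hN : N.Normal]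
    [hfin : FiniteDimensional k⟮t⟯ (F2 t N)] {z : Ω} (hz : z ∈ F2 t N) : z ∈ k⟮t⟯ := by
  let j : F2 t N →ₐ[k] Ω := (F2 t N).val.restrictScalars k
  let t' : F2 t N := algebraMap k⟮t⟯ (F2 t N) (AdjoinSimple.gen k t)
  have hjt : j t' = t := rfl
  have hmap : (k⟮t'⟯).map j = k⟮t⟯ := by
    rw [adjoin_map, Set.image_singleton, hjt]
  have hE : ∀ x : k⟮t⟯, algebraMap k⟮t⟯ (F2 t N) x ∈ k⟮t'⟯ := by
    intro x
    have h1 : (x : Ω) ∈ (k⟮t'⟯).map j := by
      rw [hmap]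
      exact x.2
    obtain ⟨y, hy, hyx⟩ := h1
    have h2 : y = algebraMap k⟮t⟯ (F2 t N) x := Subtype.ext hyx
    rw [← h2]
    exact hy
  let φ : k⟮t⟯ →+* k⟮t'⟯ := (algebraMap k⟮t⟯ (F2 t N)).codRestrict k⟮t'⟯ hE
  let _ : Algebra k⟮t⟯ k⟮t'⟯ := φ.toAlgebra
  have htow : IsScalarTower k⟮t⟯ k⟮t'⟯ (F2 t N) := IsScalarTower.of_algebraMap_eq (fun x => rfl)
  have hfin' : FiniteDimensional k⟮t'⟯ (F2 t N) :=
    Module.Finite.of_restrictScalars_finite k⟮t⟯ k⟮t'⟯ (F2 t N)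
  have hsep : Algebra.IsSeparable k⟮t⟯ (F2 t N) := by
    rw [← le_separableClosure_iff]
    exact inf_le_right
  have hsep' : Algebra.IsSeparable k⟮t'⟯ (F2 t N) :=
    Algebra.isSeparable_tower_top_of_isSeparable k⟮t⟯ (L := k⟮t'⟯) (F2 t N)
  have htow' : IsScalarTower k (F2 t N) Ω := IsScalarTower.of_algebraMap_eq (fun x => rfl)
  have htr : Transcendental k t' := by
    rw [← transcendental_algebraMap_iff (R := k) (A := Ω)
      (algebraMap (F2 t N) Ω).injective]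
    exact ht
  have hres : ∀ s : Ω, k⟮s⟯ = k⟮t⟯ → ∃ τ : F2 t N →ₐ[k] F2 t N, ((τ t' : F2 t N) : Ω) = s := by
    intro s hs
    obtain ⟨τ, hτ⟩ := exists_tau hL ht halg hs
    refine ⟨{ toFun := fun x => ⟨τ x, tau_mem hs hτ x.2⟩
              map_one' := Subtype.ext (map_one τ)
              map_mul' := fun x y => Subtype.ext (map_mul τ _ _)
              map_zero' := Subtype.ext (map_zero τ)
              map_add' := fun x y => Subtype.ext (map_add τ _ _)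
              commutes' := fun r => Subtype.ext (τ.commutes r) }, ?_⟩
    exact hτ
  have h1 := hP k (F2 t N) t' htr hfin' hsep'
    (by
      intro b
      obtain ⟨τ, hτ⟩ := hres _ (adjoin_add t b)
      exact ⟨τ, Subtype.ext hτ⟩)
    (by
      obtain ⟨τ, hτ⟩ := hres _ (adjoin_inv t)
      exact ⟨τ, Subtype.ext hτ⟩) ⟨z, hz⟩
  have h2 : z ∈ (k⟮t'⟯).map j := ⟨⟨z, hz⟩, h1, rfl⟩
  rwa [hmap] at h2

theorem t_NORM : S_NORM.{u} := by
  intro hP hL k Ω _ _ _ _ _ t ht halg N _ M _ _ hM σ hσ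
  have hle := F2_le halg M hM
  have hfin : FiniteDimensional k⟮t⟯ (F2 t N) :=
    FiniteDimensional.of_injective (IntermediateField.inclusion hle).toLinearMap
      (IntermediateField.inclusion hle).injective
  have hEalg : Algebra.IsAlgebraic k⟮t⟯ Ω := ⟨fun x => isAlg_adjoin.1 (halg x)⟩
  have hnorm : Normal k⟮t⟯ Ω := by
    have : IsAlgClosure k⟮t⟯ Ω := ⟨inferInstance, hEalg⟩
    exact IsAlgClosure.normal _ _
  set r : (Ω ≃ₐ[k⟮t⟯] Ω) →* (M ≃ₐ[k⟮t⟯] M) := AlgEquiv.restrictNormalHom M with hr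
  have hD : fixedField ((NE t N).map r) = ⊥ := by
    rw [eq_bot_iff]
    intro m hm
    have h1 : (m : Ω) ∈ F2 t N := by
      refine mem_F2.2 ⟨fun σ' hσ' => ?_, ?_⟩
      · have h2 := hm ⟨r σ', Subgroup.mem_map_of_mem r hσ'⟩
        have h3 : r σ' m = m := h2
        have h4 := AlgEquiv.restrictNormal_commutes σ' M m
        have h5 : algebraMap M Ω (r σ' m) = σ' (algebraMap M Ω m) := h4
        rw [h3] at h5
        exact h5.symm
      · have h2 : IsSeparable k⟮t⟯ m := Algebra.IsSeparable.isSeparable k⟮t⟯ m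
        exact IsSeparable.map M.val M.val.injective h2
    have h2 := F2_eq hP hL ht halg h1
    rw [IntermediateField.mem_bot]
    exact ⟨⟨m, h2⟩, Subtype.ext rfl⟩
  have hDtop : (NE t N).map r = ⊤ := by
    have h1 := fixingSubgroup_fixedField ((NE t N).map r)
    rw [hD, fixingSubgroup_bot] at h1
    exact h1.symm
  obtain ⟨σ', hσ', hrσ⟩ : r (toE σ hσ) ∈ (NE t N).map r := by
    rw [hDtop]
    exact Subgroup.mem_top _
  set δ : Ω ≃ₐ[k⟮t⟯] Ω := σ'⁻¹ * toE σ hσ with hδ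
  have h1 : r δ = 1 := by
    rw [hδ, map_mul, map_inv, hrσ, inv_mul_cancel]
  have h2 : δ.restrictScalars k ∈ N := by
    apply hM
    intro z hz
    have h4 := AlgEquiv.restrictNormal_commutes δ M ⟨z, hz⟩
    have h5 : algebraMap M Ω (r δ ⟨z, hz⟩) = δ (algebraMap M Ω ⟨z, hz⟩) := h4
    rw [h1] at h5
    exact h5.symm
  have h3 : σ = σ'.restrictScalars k * δ.restrictScalars k := by
    ext x
    show σ x = σ' (σ'.symm (σ x))
    rw [AlgEquiv.apply_symm_apply]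
  rw [h3]
  exact N.mul_mem hσ' h2

end main

end Pool.Agent.J6H72.BSV
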