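import Pool.Agent.J6H36.BSV.Defs

/-!
# Project BSV, module SPEC: specialization
-/

set_option autoImplicit false

universe u w

namespace Pool.Agent.J6H72.BSV

open Topology MvPolynomial

section generic

variable {P D : Type*} [CommRing P] [IsDomain P] [CommRing D] [IsDomain D]

/-- the generic point -/
def gen (P : Type*) [CommRing P] [IsDomain P] : PrimeSpectrum P := ⟨⊥, Ideal.isPrime_bot⟩

theorem gen_mem_of_isOpen {s : Set (PrimeSpectrum P)} (hs : IsOpen s) {x : PrimeSpectrum P}
    (hx : x ∈ s) : gen P ∈ s := by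
  have h : gen P ⤳ x := by
    rw [← PrimeSpectrum.le_iff_specializes]
    exact bot_le
  exact h.mem_open hs hx

/-- a constructible set or its complement contains a neighbourhood of the generic point -/
theorem nhds_gen {s : Set (PrimeSpectrum P)} (hs : IsConstructible s) :
    (gen P ∈ s → ∃ U : Set (PrimeSpectrum P), IsOpen U ∧ gen P ∈ U ∧ U ⊆ s) ∧
    (gen P ∉ s → ∃ U : Set (PrimeSpectrum P), IsOpen U ∧ gen P ∈ U ∧ U ⊆ sᶜ) := by
  induction hs using IsConstructible.empty_union_induction with
  | open_retrocompact U hU hUc =>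
    refine ⟨fun h => ⟨U, hU, h, subset_rfl⟩, fun h => ⟨Set.univ, isOpen_univ, trivial, ?_⟩⟩
    intro x _ hx
    exact h (gen_mem_of_isOpen hU hx)
  | union s hs t ht hs' ht' =>
    constructor
    · rintro (h | h)
      · obtain ⟨U, h1, h2, h3⟩ := hs'.1 h
        exact ⟨U, h1, h2, h3.trans Set.subset_union_left⟩
      · obtain ⟨U, h1, h2, h3⟩ := ht'.1 h
        exact ⟨U, h1, h2, h3.trans Set.subset_union_right⟩
    · intro h
      rw [Set.mem_union, not_or] at h
      obtain ⟨U, h1, h2, h3⟩ := hs'.2 h.1
      obtain ⟨U', h1', h2', h3'⟩ := ht'.2 h.2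
      refine ⟨U ∩ U', h1.inter h1', ⟨h2, h2'⟩, ?_⟩
      rintro x ⟨hx, hx'⟩ (hs | ht)
      · exact h3 hx hs
      · exact h3' hx' ht
  | compl s hs hs' =>
    constructor
    · intro h
      exact hs'.2 h
    · intro h
      rw [Set.mem_compl_iff, not_not] at h
      rw [compl_compl]
      exact hs'.1 h

theorem exists_dense (f : P →+* D) (hf : f.FinitePresentation) (hinj : Function.Injective f) :
    ∃ g : P, g ≠ 0 ∧ ∀ p : PrimeSpectrum P, g ∉ p.asIdeal → ∃ q : PrimeSpectrum D,
      PrimeSpectrum.comap f q = p := by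
  have hc := PrimeSpectrum.isConstructible_range_comap hf
  have hgen : gen P ∈ Set.range (PrimeSpectrum.comap f) := by
    refine ⟨gen D, ?_⟩
    ext x
    show f x = 0 ↔ x = 0
    exact map_eq_zero_iff f hinj
  obtain ⟨U, hU, hgU, hUs⟩ := (nhds_gen hc).1 hgen
  obtain ⟨_, ⟨g, rfl⟩, h1, h2⟩ :=
    PrimeSpectrum.isTopologicalBasis_basic_opens.isOpen_iff.mp hU _ hgU
  refine ⟨g, ?_, ?_⟩
  · intro h
    apply h1
    rw [h]
    exact Ideal.zero_mem _
  · intro p hp
    exact hUs (h2 hp)

end generic

/-- homomorphisms `A[X] → A`, `X ↦ c`, extend to `D` for all `c` outside a hypersurface -/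
theorem exists_ext {A D J : Type*} [Field A] [IsAlgClosed A] [CommRing D] [IsDomain D] [Algebra A D]
    [Algebra.FiniteType A D] [Finite J] (t : J → D) (ht : AlgebraicIndependent A t) :
    ∃ g : MvPolynomial J A, g ≠ 0 ∧ ∀ c : J → A, eval c g ≠ 0 → ∃ ψ : D →ₐ[A] A,
      ∀ j, ψ (t j) = c j := by
  let f : MvPolynomial J A →+* D := (aeval t : MvPolynomial J A →ₐ[A] D).toRingHom
  have hfin : f.FinitePresentation := by
    have h1 : f.FiniteType := by
      apply RingHom.FiniteType.of_comp_finiteType (f := (C : A →+* MvPolynomial J A))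
      have h2 : f.comp C = algebraMap A D := by
        ext a
        simp [f]
      rw [h2]
      exact RingHom.finiteType_algebraMap.2 inferInstance
    exact RingHom.FinitePresentation.of_finiteType.1 h1
  obtain ⟨g, hg, h⟩ := exists_dense f hfin ht
  refine ⟨g, hg, fun c hc => ?_⟩
  have hmax : (RingHom.ker (eval c : MvPolynomial J A →+* A)).IsMaximal :=
    RingHom.ker_isMaximal_of_surjective _ (fun a => ⟨C a, eval_C a⟩)
  obtain ⟨q, hq⟩ := h ⟨RingHom.ker (eval c), hmax.isPrime⟩ hc
  obtain ⟨M, hM, hqM⟩ := Ideal.exists_le_maximal q.asIdeal q.2.ne_top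
  let _ := Ideal.Quotient.field M
  have hfinM : Module.Finite A (D ⧸ M) := finite_of_finite_type_of_isJacobsonRing A (D ⧸ M)
  have hbij : Function.Bijective (algebraMap A (D ⧸ M)) :=
    IsAlgClosed.algebraMap_bijective_of_isIntegral
  let e : A ≃ₐ[A] (D ⧸ M) := AlgEquiv.ofBijective (Algebra.ofId A (D ⧸ M)) hbij
  refine ⟨e.symm.toAlgHom.comp (Ideal.Quotient.mkₐ A M), fun j => ?_⟩
  have h1 : t j - algebraMap A D (c j) ∈ M := by
    apply hqM
    have h2 : (X j - C (c j) : MvPolynomial J A) ∈ (PrimeSpectrum.comap f q).asIdeal := by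
      rw [hq]
      show eval c (X j - C (c j)) = 0
      simp
    have h3 : f (X j - C (c j)) ∈ q.asIdeal := h2
    have h4 : f (X j - C (c j)) = t j - algebraMap A D (c j) := by simp [f]
    rwa [h4] at h3
  show e.symm (Ideal.Quotient.mk M (t j)) = c j
  rw [AlgEquiv.symm_apply_eq]
  show Ideal.Quotient.mk M (t j) = Ideal.Quotient.mk M (algebraMap A D (c j))
  exact Ideal.Quotient.eq.2 h1

/-- an element which is algebraic over an algebraically closed field belongs to it -/
theorem mem_of_isAlgebraic {k A : Type*} [Field k] [IsAlgClosed k] [Field A] [Algebra k A] {x : A}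
    (hx : IsAlgebraic k x) : x ∈ Set.range (algebraMap k A) := by
  have h : IsIntegral k x := hx.isIntegral
  have h1 : (minpoly k x).degree = 1 :=
    IsAlgClosed.degree_eq_one_of_irreducible k (minpoly.irreducible h)
  exact minpoly.mem_range_of_degree_eq_one k x h1

theorem t_SPEC : Pool.Agent.J6H36.BSV.S_SPEC.{u} := by
  classical
  intro k A Ω _ _ _ _ _ _ _ _ _ J _ t ht Cs Z hZ
  have htk : AlgebraicIndependent k t := ht.restrictScalars (algebraMap k A).injective
  set D := Algebra.adjoin A ((Cs : Set Ω) ∪ (Z : Set Ω) ∪ Set.range t) with hD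
  have hfg : D.FG := by
    have hfin : ((Cs : Set Ω) ∪ (Z : Set Ω) ∪ Set.range t).Finite :=
      (Cs.finite_toSet.union Z.finite_toSet).union (Set.finite_range t)
    refine ⟨hfin.toFinset, ?_⟩
    rw [hfin.coe_toFinset]
  have : Algebra.FiniteType A D := (Subalgebra.fg_iff_finiteType D).1 hfg
  let tD : J → D := fun j => ⟨t j, Algebra.subset_adjoin (Or.inr ⟨j, rfl⟩)⟩
  have htD : AlgebraicIndependent A tD := by
    apply AlgebraicIndependent.of_comp D.val
    exact ht
  obtain ⟨g, hg, hext⟩ := exists_ext tD htD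
  -- the polynomials of the elements of `Z`
  have hq : ∀ z : Z, ∃ q : Polynomial (Algebra.adjoin k (Set.range t)), q ≠ 0 ∧
      Polynomial.aeval (z : Ω) q = 0 := fun z => hZ z z.2
  choose q hq0 hqz using hq
  let l : Z → MvPolynomial J k := fun z => htk.repr (q z).leadingCoeff
  have hl : ∀ z, l z ≠ 0 := by
    intro z h
    have h1 : (q z).leadingCoeff = 0 := by
      apply htk.aevalEquiv.symm.injective
      rw [map_zero]
      exact h
    exact hq0 z (Polynomial.leadingCoeff_eq_zero.1 h1)
  -- the choice of `c`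
  obtain ⟨c, hc⟩ : ∃ c : J → k, eval (fun j => algebraMap k A (c j))
      (g * ∏ z, map (algebraMap k A) (l z)) ≠ 0 := by
    by_contra hcon
    push Not at hcon
    have hne : g * ∏ z, map (algebraMap k A) (l z) ≠ 0 := by
      apply mul_ne_zero hg
      rw [Finset.prod_ne_zero_iff]
      intro z _ h
      apply hl z
      apply map_injective _ (algebraMap k A).injective
      rw [h, map_zero]
    apply hne
    apply funext_set (fun _ => Set.range (algebraMap k A))
    · intro i
      exact Set.infinite_range_of_injective (algebraMap k A).injective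
    · intro x hx
      rw [map_zero]
      choose c hc using fun j => hx j (Set.mem_univ j)
      have := hcon c
      have hx' : (fun j => algebraMap k A (c j)) = x := _root_.funext hc
      rwa [hx'] at this
  rw [map_mul, map_prod] at hc
  obtain ⟨hc1, hc2⟩ := mul_ne_zero_iff.1 hc
  rw [Finset.prod_ne_zero_iff] at hc2
  obtain ⟨ψ, hψ⟩ := hext _ hc1
  refine ⟨ψ, ?_⟩
  -- `ψ` on the elements of `k[t]`
  have hmem : ∀ p : MvPolynomial J k, (aeval t p : Ω) =
      ((aeval tD (map (algebraMap k A) p) : D) : Ω) := by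
    intro p
    have h1 : ((aeval tD (map (algebraMap k A) p) : D) : Ω) = aeval t (map (algebraMap k A) p) := by
      have h2 : D.val.comp (aeval tD) = (aeval t : MvPolynomial J A →ₐ[A] Ω) := by
        ext j
        simp [tD]
      exact DFunLike.congr_fun h2 (map (algebraMap k A) p)
    rw [h1, aeval_map_algebraMap]
  have hev : ∀ p : MvPolynomial J k, (aeval (fun j => algebraMap k A (c j)) p : A) =
      algebraMap k A (eval c p) := fun p => aeval_algebraMap_apply (B := A) c p
  have hψp : ∀ p : MvPolynomial J k, ψ (aeval tD (map (algebraMap k A) p)) =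
      algebraMap k A (eval c p) := by
    intro p
    have h1 : ψ.comp (aeval tD) = (aeval (fun j => algebraMap k A (c j)) : MvPolynomial J A →ₐ[A] A) := by
      ext j
      simp [hψ]
    have h2 := DFunLike.congr_fun h1 (map (algebraMap k A) p)
    have h3 : ψ (aeval tD (map (algebraMap k A) p)) =
      aeval (fun j => algebraMap k A (c j)) (map (algebraMap k A) p) := h2
    rw [h3, aeval_map_algebraMap]
    exact hev p
  let χ : Algebra.adjoin k (Set.range t) →+* k :=
    ((eval c).comp htk.repr.toRingHom)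
  -- the homomorphism `k[t] → D`
  let ι : Algebra.adjoin k (Set.range t) →+* D :=
    ((aeval tD : MvPolynomial J A →ₐ[A] D).toRingHom.comp (map (algebraMap k A))).comp
      htk.repr.toRingHom
  have hι : ∀ r, ((ι r : D) : Ω) = (r : Ω) := by
    intro r
    rw [← htk.aeval_repr r, hmem]
    rfl
  have hψι : ∀ r, ψ (ι r) = algebraMap k A (χ r) := fun r => hψp _
  intro z hz
  apply mem_of_isAlgebraic
  refine ⟨(q ⟨z, hz⟩).map χ, ?_, ?_⟩
  · intro h
    have h1 : ((q ⟨z, hz⟩).map χ).coeff (q ⟨z, hz⟩).natDegree = 0 := by rw [h, Polynomial.coeff_zero]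
    rw [Polynomial.coeff_map] at h1
    apply hc2 ⟨z, hz⟩ (Finset.mem_univ _)
    rw [eval_map]
    have h2 := hev (l ⟨z, hz⟩)
    rw [aeval_def] at h2
    rw [h2]
    have h3 : eval c (l ⟨z, hz⟩) = 0 := h1
    rw [h3, map_zero]
  · have h1 : Polynomial.eval₂ ι z (q ⟨z, hz⟩) = 0 := by
      apply Subtype.val_injective
      have h2 := hqz ⟨z, hz⟩
      rw [Polynomial.aeval_def] at h2
      have h3 := Polynomial.hom_eval₂ (q ⟨z, hz⟩) ι D.val.toRingHom z
      have h4 : D.val.toRingHom.comp ι = algebraMap (Algebra.adjoin k (Set.range t)) Ω := by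
        ext r
        exact hι r
      rw [h4] at h3
      exact h3.trans h2
    have h3 := Polynomial.hom_eval₂ (q ⟨z, hz⟩) ι ψ.toRingHom z
    rw [h1, map_zero] at h3
    have h4 : ψ.toRingHom.comp ι = (algebraMap k A).comp χ := by
      ext r
      exact hψι r
    rw [h4] at h3
    rw [Polynomial.aeval_def, Polynomial.eval₂_map]
    exact h3.symm

end Pool.Agent.J6H72.BSV
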